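import Pool.Agent.Helper72.LSr.N1
import Pool.Agent.Helper72.LS.P18

/-!
# Piece LR-E4: every `(n, m)` has a valid line with `M ≤ k`
-/

namespace Pool.Agent.Helper67.LSr

open Finset
open scoped Classical
open Pool.Agent.Helper72.LSr

/-- every `(n, m)` has a valid line with `M ≤ k` -/
theorem exists_valid (n m : ℕ) (hm1 : 1 ≤ m) (hm : m ≤ n.choose 2) :
    ∃ k A B : ℕ, 1 ≤ k ∧ Mm k A B n ≤ k ∧ 0 ≤ rho k A B n m ∧ 0 ≤ gg k A B n m := by
  have hm' : (m : ℤ) ≤ Pool.Agent.Helper72.LS.c2 n := by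
    have h2 := Pool.Agent.Helper72.LS.two_c2 (n : ℤ)
    have h3 : (m : ℤ) ≤ (n.choose 2 : ℕ) := by exact_mod_cast hm
    have h4 : (2 : ℤ) * (n.choose 2 : ℕ) = (n : ℤ) * ((n : ℤ) - 1) := by
      rcases Nat.eq_zero_or_pos n with h0 | h0
      · subst h0; simp
      · have h5 : n.choose 2 * 2 = n * (n - 1) := by
          rw [Nat.choose_two_right]
          exact Nat.div_mul_cancel (Nat.even_mul_pred_self n).two_dvd
        have h6 : ((n.choose 2 : ℕ) : ℤ) * 2 = (n : ℤ) * ((n - 1 : ℕ) : ℤ) := by exact_mod_cast h5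
        rw [Nat.cast_sub h0] at h6
        push_cast at h6
        linarith
    linarith
  obtain ⟨k, δ, h, e, hk, hδ, he, heh, hn, h1, h2⟩ :=
    Pool.Agent.Helper72.LS.P18.exists_segment n m hm1 hm'
  obtain ⟨A, rfl⟩ : ∃ A, h = e + A := ⟨h - e, by omega⟩
  obtain ⟨B, rfl⟩ : ∃ B, e = B + 1 := ⟨e - 1, by omega⟩
  have hnz : (n : ℤ) = ((B : ℤ) + 1 + A) * k + (B + 1) + δ := by
    have := congrArg (Nat.cast : ℕ → ℤ) hn
    push_cast at this
    linarith
  have hE : EE k A B = (n : ℤ) - (k + δ + 1) := by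
    unfold EE
    rw [hnz]; ring
  have hnu : nu k A B n = k + δ + 1 := by
    unfold nu
    rw [hE]; ring
  have es3 := two_es3 k A B
  have d1 := Pool.Agent.Helper72.LS.two_c2 (n : ℤ)
  have d2 := Pool.Agent.Helper72.LS.two_c2 ((k : ℤ) + 1)
  have d3 := Pool.Agent.Helper72.LS.two_c2 (δ : ℤ)
  have d4 := Pool.Agent.Helper72.LS.Dj_succ (k : ℤ) (δ : ℤ)
  have hrho : rho k A B n m = Pool.Agent.Helper72.LS.pos k ((B + 1 + A : ℕ) : ℤ) n m
      - Pool.Agent.Helper72.LS.Dj k δ := by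
    have key : 2 * rho k A B n m = 2 * (Pool.Agent.Helper72.LS.pos k ((B + 1 + A : ℕ) : ℤ) n m
      - Pool.Agent.Helper72.LS.Dj k δ) := by
      unfold rho th Pool.Agent.Helper72.LS.pos Pool.Agent.Helper72.LS.Dj
      rw [hnu]
      rw [hE] at es3 ⊢
      push_cast
      have es3' : 2 * es k A B 3 = ((n : ℤ) - (k + δ + 1)) ^ 2 - A * k ^ 2 - B * (k + 1) ^ 2 := es3
      rw [hnz] at es3' d1 ⊢
      linear_combination (-1 : ℤ) * es3' + d1 + ((B : ℤ) + 1 + A) * d2 - d3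
    linarith
  have hgg : gg k A B n m = Pool.Agent.Helper72.LS.Dj k (δ + 1)
      - Pool.Agent.Helper72.LS.pos k ((B + 1 + A : ℕ) : ℤ) n m := by
    have h5 := rho_add_gg k A B (n : ℤ) (m : ℤ)
    have h6 : Mm k A B n = k - δ := by
      unfold Mm
      rw [hnu]; ring
    rw [h6] at h5
    linarith
  refine ⟨k, A, B, hk, ?_, ?_, ?_⟩
  · unfold Mm
    rw [hnu]
    have : (0 : ℤ) ≤ δ := by positivity
    linarith
  · rw [hrho]; linarith
  · rw [hgg]; linarith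

end Pool.Agent.Helper67.LSr
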